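import Mathlib

/-!
# Counting units of the form `u (ρ + i)` modulo `n`
-/

set_option autoImplicit false

namespace Pool.Agent.Lib.H43D

/-- Residues `ρ` modulo `n` such that `1 + ρ ^ 2` is a unit. -/
abbrev RP (n : ℕ) : Type := {c : ZMod n // IsUnit (1 + c ^ 2)}

/-- The number of residues `ρ` modulo `n` such that `1 + ρ ^ 2` is a unit. -/
noncomputable def cR (n : ℕ) : ℕ := Nat.card (RP n)

lemma cR_one : cR 1 = 1 := by
  unfold cR RP
  have : Nat.card {c : ZMod 1 // IsUnit (1 + c ^ 2)} = Nat.card (ZMod 1) := by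
    apply Nat.card_congr
    refine Equiv.subtypeUnivEquiv fun c => ?_
    have : 1 + c ^ 2 = (1 : ZMod 1) := Subsingleton.elim _ _
    rw [this]; exact isUnit_one
  rw [this]
  simp

lemma cR_mul {m n : ℕ} (h : m.Coprime n) : cR (m * n) = cR m * cR n := by
  unfold cR
  rw [← Nat.card_prod]
  let e := ZMod.chineseRemainder h
  apply Nat.card_congr
  refine ⟨fun c => (⟨(e c.1).1, ?_⟩, ⟨(e c.1).2, ?_⟩),
    fun c => ⟨e.symm (c.1.1, c.2.1), ?_⟩, ?_, ?_⟩
  · have h1 := c.2.map e
    rw [map_add, map_pow, map_one] at h1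
    rw [Prod.isUnit_iff] at h1
    exact h1.1
  · have h1 := c.2.map e
    rw [map_add, map_pow, map_one] at h1
    rw [Prod.isUnit_iff] at h1
    exact h1.2
  · have h1 : IsUnit (1 + (c.1.1, c.2.1) ^ 2 : ZMod m × ZMod n) := by
      rw [Prod.isUnit_iff]
      exact ⟨c.1.2, c.2.2⟩
    have h2 := h1.map e.symm
    rwa [map_add, map_pow, map_one] at h2
  · rintro ⟨a, h⟩
    simp
  · rintro ⟨⟨a, h⟩, ⟨c, h'⟩⟩
    simp

lemma cR_prime {p : ℕ} (hp : p.Prime) : p ≤ cR p * 4 := by
  have : Fact p.Prime := ⟨hp⟩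
  rcases eq_or_ne p 2 with rfl | h2
  · have : Nonempty (RP 2) := ⟨⟨0, by simp⟩⟩
    have h3 : 0 < Nat.card (RP 2) := Nat.card_pos
    unfold cR
    omega
  · have hp3 : 3 ≤ p := by
      have := hp.two_le
      omega
    classical
    have h1 : cR p = Fintype.card (RP p) := by
      unfold cR
      rw [Nat.card_eq_fintype_card]
    have hz : (Finset.univ.filter (fun c : ZMod p => ¬ IsUnit (1 + c ^ 2))).card ≤ 2 := by
      simp only [isUnit_iff_ne_zero, not_not]
      by_cases he : ∃ s : ZMod p, 1 + s ^ 2 = 0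
      · obtain ⟨s0, hs0⟩ := he
        have : (Finset.univ.filter (fun s : ZMod p => 1 + s ^ 2 = 0)) ⊆ {s0, -s0} := by
          intro s hs
          simp only [Finset.mem_filter, Finset.mem_univ, true_and] at hs
          have h3 : (s - s0) * (s + s0) = 0 := by linear_combination hs - hs0
          simp only [Finset.mem_insert, Finset.mem_singleton]
          rcases mul_eq_zero.mp h3 with h | h
          · left; linear_combination h
          · right; linear_combination h
        exact (Finset.card_le_card this).trans Finset.card_le_two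
      · rw [Finset.filter_eq_empty_iff.mpr]
        · simp
        · intro s _ hs
          exact he ⟨s, hs⟩
    have htot : (Finset.univ.filter (fun c : ZMod p => IsUnit (1 + c ^ 2))).card +
        (Finset.univ.filter (fun c : ZMod p => ¬ IsUnit (1 + c ^ 2))).card = p := by
      rw [Finset.card_filter_add_card_filter_not]
      rw [Finset.card_univ, ZMod.card]
    have h2' : Fintype.card (RP p) =
        (Finset.univ.filter (fun c : ZMod p => IsUnit (1 + c ^ 2))).card := by
      rw [Fintype.card_subtype]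
    rw [h1, h2']
    omega

/-- unit modulo a prime power -/
lemma isUnit_pow_iff {p k : ℕ} (hp : p.Prime) (hk : 0 < k) (a : ℕ) :
    IsUnit ((a : ℕ) : ZMod (p ^ k)) ↔ IsUnit ((a : ℕ) : ZMod p) := by
  rw [ZMod.isUnit_iff_coprime, ZMod.isUnit_iff_coprime, Nat.coprime_pow_right_iff hk]

lemma cR_prime_pow {p k : ℕ} (hp : p.Prime) (hk : 0 < k) : p ^ (k - 1) * cR p ≤ cR (p ^ k) := by
  have : Fact p.Prime := ⟨hp⟩
  have hpk : NeZero (p ^ k) := ⟨pow_ne_zero _ hp.ne_zero⟩
  unfold cR
  have hck : Nat.card (Fin (p ^ (k - 1))) = p ^ (k - 1) := by simp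
  rw [← hck, ← Nat.card_prod]
  have hun : ∀ (j : Fin (p ^ (k - 1))) (c : RP p),
      IsUnit (1 + ((((c.1.val + p * j : ℕ)) : ZMod (p ^ k))) ^ 2) := by
    intro j c
    have e1 : (1 + ((((c.1.val + p * j : ℕ)) : ZMod (p ^ k))) ^ 2) =
        ((1 + (c.1.val + p * j) ^ 2 : ℕ) : ZMod (p ^ k)) := by push_cast; ring
    rw [e1, isUnit_pow_iff hp hk]
    have e2 : ((1 + (c.1.val + p * j) ^ 2 : ℕ) : ZMod p) = 1 + c.1 ^ 2 := by
      push_cast
      simp
    rw [e2]
    exact c.2
  refine Nat.card_le_card_of_injective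
    (fun x : Fin (p ^ (k - 1)) × RP p => (⟨_, hun x.1 x.2⟩ : RP (p ^ k))) ?_
  rintro ⟨j, c⟩ ⟨j', c'⟩ h
  simp only [Subtype.mk.injEq] at h
  have hb : ∀ (j : Fin (p ^ (k - 1))) (c : RP p), c.1.val + p * j < p ^ k := by
    intro j c
    have h1 : c.1.val < p := ZMod.val_lt _
    have h2 : (j : ℕ) + 1 ≤ p ^ (k - 1) := j.2
    have h3 : p ^ k = p * p ^ (k - 1) := by
      rw [← pow_succ']
      congr 1
      omega
    rw [h3]
    calc c.1.val + p * j < p + p * j := by omega
      _ = p * (j + 1) := by ring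
      _ ≤ _ := Nat.mul_le_mul_left _ h2
  rw [ZMod.natCast_eq_natCast_iff'] at h
  rw [Nat.mod_eq_of_lt (hb j c), Nat.mod_eq_of_lt (hb j' c')] at h
  have h1 : c.1.val = c'.1.val := by
    have := congrArg (· % p) h
    simp only [Nat.add_mul_mod_self_left] at this
    rwa [Nat.mod_eq_of_lt (ZMod.val_lt _), Nat.mod_eq_of_lt (ZMod.val_lt _)] at this
  have h2 : (j : ℕ) = j' := by
    rw [h1] at h
    have h3 : p * (j : ℕ) = p * j' := by omega
    exact Nat.eq_of_mul_eq_mul_left hp.pos h3
  rw [Prod.mk.injEq]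
  exact ⟨Fin.ext h2, Subtype.ext (ZMod.val_injective _ h1)⟩

/-- Almost all residues `ρ` give units `1 + ρ ^ 2`. -/
lemma le_cR {n : ℕ} (hn : n ≠ 0) : n ≤ cR n * n.divisors.card ^ 2 := by
  induction n using Nat.recOnPosPrimePosCoprime with
  | zero => exact absurd rfl hn
  | one => simp [cR_one]
  | prime_pow p k hp hk =>
    rw [Nat.divisors_prime_pow hp, Finset.card_map, Finset.card_range]
    have h1 := cR_prime_pow hp hk
    have h2 := cR_prime hp
    have h3 : p ^ k = p ^ (k - 1) * p := by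
      rw [← pow_succ]
      congr 1
      omega
    calc p ^ k = p ^ (k - 1) * p := h3
      _ ≤ p ^ (k - 1) * (cR p * 4) := Nat.mul_le_mul_left _ h2
      _ = (p ^ (k - 1) * cR p) * 2 ^ 2 := by ring
      _ ≤ cR (p ^ k) * (k + 1) ^ 2 := by
          apply Nat.mul_le_mul h1
          apply Nat.pow_le_pow_left
          omega
  | coprime a b ha hb hab iha ihb =>
    rw [cR_mul hab, Nat.Coprime.card_divisors_mul hab, mul_pow]
    have h1 := iha (by omega)
    have h2 := ihb (by omega)
    calc a * b ≤ (cR a * a.divisors.card ^ 2) * (cR b * b.divisors.card ^ 2) :=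
          Nat.mul_le_mul h1 h2
      _ = _ := by ring

/-- Euler's function. -/
lemma le_totient {n : ℕ} (hn : n ≠ 0) : n ≤ n.totient * n.divisors.card := by
  induction n using Nat.recOnPosPrimePosCoprime with
  | zero => exact absurd rfl hn
  | one => simp
  | prime_pow p k hp hk =>
    rw [Nat.divisors_prime_pow hp, Finset.card_map, Finset.card_range, Nat.totient_prime_pow hp hk]
    have h3 : p ^ k = p ^ (k - 1) * p := by
      rw [← pow_succ]
      congr 1
      omega
    have h4 : p ≤ (p - 1) * 2 := by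
      have := hp.two_le
      omega
    calc p ^ k = p ^ (k - 1) * p := h3
      _ ≤ p ^ (k - 1) * ((p - 1) * 2) := Nat.mul_le_mul_left _ h4
      _ = p ^ (k - 1) * (p - 1) * 2 := by ring
      _ ≤ p ^ (k - 1) * (p - 1) * (k + 1) := by
          apply Nat.mul_le_mul_left
          omega
  | coprime a b ha hb hab iha ihb =>
    rw [Nat.totient_mul hab, Nat.Coprime.card_divisors_mul hab]
    have h1 := iha (by omega)
    have h2 := ihb (by omega)
    calc a * b ≤ (a.totient * a.divisors.card) * (b.totient * b.divisors.card) :=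
          Nat.mul_le_mul h1 h2
      _ = _ := by ring

end Pool.Agent.Lib.H43D
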