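import Pool.Agent.Lib.H56.Gen.LevelData
import Pool.Agent.Lib.H43D.IndexCount

/-!
# Lower bound of the index of a principal congruence subgroup of `SU(2,1; ℤ[i])`

For `n ≥ 1` the index of `Γ(n)` in `Γ(1)` is at least `n ^ 8 / (4 d(n) ^ 3)`.
-/

set_option autoImplicit false

namespace Pool.Agent.Lib.H43D

open Matrix hiding J
open Pool.Agent.Lib.H56.Picard (SU21 mat mat_mul mat_one mkSU mat_mkSU TM TM_unitary T mat_T arith)
open Pool.Agent.Lib.H56.Gen

noncomputable section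

/-! ### Gaussian integers modulo `n` -/

lemma elI_re (a b : ℤ) : (el qI a b).re = a := by rw [el_re]; simp [qI]

lemma elI_im (a b : ℤ) : (el qI a b).im = b := by rw [el_im, sd_qI]; simp

lemma elI_mul (a b c d : ℤ) : el qI a b * el qI c d = el qI (a * c - b * d) (a * d + b * c) := by
  rw [el_mul]
  simp [qI]

lemma elI_star (a b : ℤ) : star (el qI a b) = el qI a (-b) := by
  rw [star_el]
  simp [qI]

lemma elI_nat (n : ℕ) : el qI n 0 = (n : ℂ) := by
  rw [el_int]; simp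

lemma elI_mem_PO {n : ℕ} {a b : ℤ} : el qI a b ∈ PO qI (n : ℂ) ↔ (n : ℤ) ∣ a ∧ (n : ℤ) ∣ b := by
  constructor
  · rintro ⟨_, ⟨c, d, rfl⟩, h⟩
    rw [← elI_nat, elI_mul, el_inj] at h
    obtain ⟨h1, h2⟩ := h
    exact ⟨⟨c, by rw [h1]; ring⟩, ⟨d, by rw [h2]; ring⟩⟩
  · rintro ⟨⟨c, rfl⟩, ⟨d, rfl⟩⟩
    refine ⟨el qI c d, el_mem c d, ?_⟩
    rw [← elI_nat, elI_mul, el_inj]
    constructor <;> ring

/-- cancellation of a unit modulo `n` -/
lemma PO_cancel {n : ℕ} {e e' x : ℂ} (he : e * e' - 1 ∈ PO qI (n : ℂ)) (hx : x ∈ OO qI)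
    (he' : e' ∈ OO qI) (h : x * e ∈ PO qI (n : ℂ)) : x ∈ PO qI (n : ℂ) := by
  have h1 : x = x * e * e' - x * (e * e' - 1) := by ring
  rw [h1]
  exact (PO qI (n : ℂ)).sub_mem (PO_mul_right he' h) (PO_mul_left hx he)

/-- congruence of group elements in one coset -/
lemma cong_of_coset {n : ℕ} {a b : Gam qI} (h : a⁻¹ * b ∈ GamN qI (n : ℂ)) (i j : Fin 3) :
    mat b.1 i j - mat a.1 i j ∈ PO qI (n : ℂ) := by
  have e0 : b = a * (a⁻¹ * b) := by group
  have e1 : mat b.1 i j - mat a.1 i j =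
      ∑ k, mat a.1 i k * (mat (a⁻¹ * b).1 k j - (1 : Matrix (Fin 3) (Fin 3) ℂ) k j) := by
    have e3 : ∑ k, mat a.1 i k * (1 : Matrix (Fin 3) (Fin 3) ℂ) k j = mat a.1 i j := by
      rw [← Matrix.mul_apply, Matrix.mul_one]
    have e4 : ∑ k, mat a.1 i k * mat (a⁻¹ * b).1 k j = mat b.1 i j := by
      rw [← Matrix.mul_apply]
      conv_rhs => rw [e0]
      rfl
    simp only [mul_sub, Finset.sum_sub_distrib, e3, e4]
  rw [e1]
  exact (PO qI (n : ℂ)).sum_mem fun k _ => PO_mul_left (a.2 i k) (h k j)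

/-! ### The translations -/

/-- horizontal part -/
def hz (a b : ℤ) : ℂ := el qI (a - b) (a + b)

/-- corner entry -/
def cz (a b t : ℤ) : ℂ := el qI (-(a ^ 2 + b ^ 2)) t

lemma hz_rel (a b t : ℤ) : 2 * (cz a b t).re = -Complex.normSq (hz a b) := by
  unfold cz hz
  rw [elI_re, normSq_el]
  unfold nf
  simp only [qI]
  push_cast
  ring

/-- the translation with `z = (1 + i)(a + b i)` and vertical part `t` -/
def tr (a b t : ℤ) : Gam qI :=
  ⟨T (hz a b) (cz a b t) (hz_rel a b t), T_mem _ (el_mem _ _) (el_mem _ _)⟩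

lemma mat_tr (a b t : ℤ) : mat (tr a b t).1 = TM (hz a b) (cz a b t) := rfl

/-- the inversion -/
def S0 : Gam qI := ⟨Pool.Agent.Lib.H56.Picard.inv0, by
  rw [Pool.Agent.Lib.H56.Picard.mem_arith]
  intro i j
  fin_cases i <;> fin_cases j <;>
    simp [Pool.Agent.Lib.H56.Picard.inv0, mat_mkSU, (OO qI).one_mem, (OO qI).zero_mem,
      (OO qI).neg_mem (OO qI).one_mem]⟩

lemma mat_S0 : mat S0.1 = !![0, 0, 1; 0, -1, 0; 1, 0, 0] := rfl

/-- the element with last entry `1 + x y + i y` -/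
def ge (x y : ℤ) : Gam qI := S0 * tr (-1) 0 x * S0 * tr 0 0 (-y)

/-- the element of the family -/
def fam (a b t a' b' t' : ℤ) (g : Gam qI) : Gam qI := tr a b t * g * (S0 * tr a' b' t' * S0)

lemma mat_mul3 (a b : Gam qI) : mat (a * b).1 = mat a.1 * mat b.1 := rfl

lemma ge_22 (x y : ℤ) : mat (ge x y).1 2 2 = el qI (1 + x * y) y := by
  unfold ge
  simp only [mat_mul3, mat_S0, mat_tr, TM]
  simp [Matrix.mul_apply, Fin.sum_univ_three]
  unfold cz hz
  apply Complex.ext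
  · simp [elI_re, elI_im]
    ring
  · simp [elI_re, elI_im]

lemma fam_22 (a b t a' b' t' : ℤ) (g : Gam qI) :
    mat (fam a b t a' b' t' g).1 2 2 = mat g.1 2 2 := by
  unfold fam
  simp only [mat_mul3, mat_S0, mat_tr, TM]
  simp [Matrix.mul_apply, Matrix.vecMul, dotProduct, Fin.sum_univ_three]

lemma fam_12 (a b t a' b' t' : ℤ) (g : Gam qI) :
    mat (fam a b t a' b' t' g).1 1 2 = mat g.1 1 2 + hz a b * mat g.1 2 2 := by
  unfold fam
  simp only [mat_mul3, mat_S0, mat_tr, TM]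
  simp [Matrix.mul_apply, Matrix.vecMul, dotProduct, Fin.sum_univ_three]

lemma fam_02 (a b t a' b' t' : ℤ) (g : Gam qI) :
    mat (fam a b t a' b' t' g).1 0 2 = mat g.1 0 2 - star (hz a b) * mat g.1 1 2 +
      cz a b t * mat g.1 2 2 := by
  unfold fam
  simp only [mat_mul3, mat_S0, mat_tr, TM]
  simp [Matrix.mul_apply, Matrix.vecMul, dotProduct, Fin.sum_univ_three]
  ring

lemma fam_21 (a b t a' b' t' : ℤ) (g : Gam qI) :
    mat (fam a b t a' b' t' g).1 2 1 = mat g.1 2 1 + star (hz a' b') * mat g.1 2 2 := by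
  unfold fam
  simp only [mat_mul3, mat_S0, mat_tr, TM]
  simp [Matrix.mul_apply, Matrix.vecMul, dotProduct, Fin.sum_univ_three]
  ring

lemma fam_20 (a b t a' b' t' : ℤ) (g : Gam qI) :
    mat (fam a b t a' b' t' g).1 2 0 = mat g.1 2 0 - hz a' b' * mat g.1 2 1 +
      cz a' b' t' * mat g.1 2 2 := by
  unfold fam
  simp only [mat_mul3, mat_S0, mat_tr, TM]
  simp [Matrix.mul_apply, Matrix.vecMul, dotProduct, Fin.sum_univ_three]
  ring

/-! ### The family -/

/-- index type of the translations -/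
abbrev NT (n : ℕ) : Type := Fin n × Fin ((n + 1) / 2) × Fin n

lemma card_NT (n : ℕ) : n ^ 3 ≤ 2 * Nat.card (NT n) := by
  simp only [Nat.card_eq_fintype_card, Fintype.card_prod, Fintype.card_fin]
  have h : n ≤ 2 * ((n + 1) / 2) := by omega
  calc n ^ 3 = n * n * n := by ring
    _ ≤ n * (2 * ((n + 1) / 2)) * n := by gcongr
    _ = _ := by ring

lemma dvd_small {n : ℕ} {a b : ℤ} (ha : 0 ≤ a) (ha' : a < n) (hb : 0 ≤ b) (hb' : b < n)
    (h : (n : ℤ) ∣ a - b) : a = b := by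
  have h1 := Int.emod_emod_of_dvd
  have h2 : a ≡ b [ZMOD n] := (Int.modEq_iff_dvd.mpr (by
    have := (dvd_neg (α := ℤ)).mpr h
    rwa [neg_sub] at this))
  have h3 := h2.eq
  rwa [Int.emod_eq_of_lt ha ha', Int.emod_eq_of_lt hb hb'] at h3

lemma NT_eq {n : ℕ} {x y : NT n}
    (h : hz x.1 x.2.1 - hz y.1 y.2.1 ∈ PO qI (n : ℂ)) : x.1 = y.1 ∧ x.2.1 = y.2.1 := by
  obtain ⟨a, b, t⟩ := x
  obtain ⟨c, d, s⟩ := y
  simp only at h ⊢
  unfold hz at h
  rw [el_sub, elI_mem_PO] at h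
  obtain ⟨h1, h2⟩ := h
  have ha := a.2
  have hb := b.2
  have hc := c.2
  have hd := d.2
  have h3 : (n : ℤ) ∣ 2 * (b : ℤ) - 2 * (d : ℤ) := by
    have := dvd_sub h2 h1
    have e : (((a : ℕ) : ℤ) + ((b : ℕ) : ℤ) - (((c : ℕ) : ℤ) + ((d : ℕ) : ℤ))) -
      (((a : ℕ) : ℤ) - ((b : ℕ) : ℤ) - (((c : ℕ) : ℤ) - ((d : ℕ) : ℤ))) =
      2 * (b : ℤ) - 2 * (d : ℤ) := by ring
    rwa [e] at this
  have h4 : 2 * ((b : ℕ) : ℤ) = 2 * ((d : ℕ) : ℤ) :=
    dvd_small (by positivity) (by omega) (by positivity) (by omega) h3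
  have h5 : ((b : ℕ) : ℤ) = ((d : ℕ) : ℤ) := by omega
  have h6 : ((a : ℕ) : ℤ) = ((c : ℕ) : ℤ) := by
    have e : (((a : ℕ) : ℤ) + ((b : ℕ) : ℤ) - (((c : ℕ) : ℤ) + ((d : ℕ) : ℤ))) =
      ((a : ℕ) : ℤ) - ((c : ℕ) : ℤ) := by rw [h5]; ring
    rw [e] at h2
    exact dvd_small (n := n) (by positivity) (by omega) (by positivity) (by omega) h2
  exact ⟨Fin.ext (by exact_mod_cast h6), Fin.ext (by exact_mod_cast h5)⟩

lemma NT_eq' {n : ℕ} {x y : NT n} (h1 : x.1 = y.1) (h2 : x.2.1 = y.2.1)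
    (h : cz x.1 x.2.1 x.2.2 - cz y.1 y.2.1 y.2.2 ∈ PO qI (n : ℂ)) : x = y := by
  obtain ⟨a, b, t⟩ := x
  obtain ⟨c, d, s⟩ := y
  simp only at h1 h2 h
  subst h1 h2
  unfold cz at h
  rw [el_sub, elI_mem_PO] at h
  obtain ⟨_, h4⟩ := h
  have ht := t.2
  have hs := s.2
  have h5 : ((t : ℕ) : ℤ) = ((s : ℕ) : ℤ) :=
    dvd_small (by positivity) (by omega) (by positivity) (by omega) h4
  have h6 : t = s := Fin.ext (by exact_mod_cast h5)
  rw [h6]

/-- choice of the element with last entry `u (ρ + i)` -/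
lemma exists_ge {n : ℕ} (u : (ZMod n)ˣ) (c : RP n) :
    ∃ g : Gam qI, ∃ r s : ℤ, mat g.1 2 2 = el qI r s ∧ (r : ZMod n) = u * c.1 ∧
      (s : ZMod n) = u := by
  obtain ⟨s, hs⟩ := ZMod.intCast_surjective (u : ZMod n)
  obtain ⟨x, hx⟩ := ZMod.intCast_surjective (c.1 - ((u⁻¹ : (ZMod n)ˣ) : ZMod n))
  refine ⟨ge x s, 1 + x * s, s, ge_22 x s, ?_, hs⟩
  push_cast
  rw [hx, hs]
  have : ((u⁻¹ : (ZMod n)ˣ) : ZMod n) * u = 1 := by simp
  linear_combination -this

/-- units modulo `n` -/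
lemma exists_inv {n : ℕ} {r s : ℤ} (h : IsUnit ((r : ZMod n) ^ 2 + (s : ZMod n) ^ 2)) :
    ∃ e' ∈ OO qI, el qI r s * e' - 1 ∈ PO qI (n : ℂ) := by
  obtain ⟨u, hu⟩ := h
  obtain ⟨m, hm⟩ := ZMod.intCast_surjective ((u⁻¹ : (ZMod n)ˣ) : ZMod n)
  refine ⟨el qI (r * m) (-(s * m)), el_mem _ _, ?_⟩
  rw [elI_mul, ← el_one, el_sub, elI_mem_PO]
  have h1 : ((r : ZMod n) ^ 2 + (s : ZMod n) ^ 2) * m = 1 := by
    rw [← hu, hm]; simp
  refine ⟨?_, ?_⟩
  · rw [← ZMod.intCast_zmod_eq_zero_iff_dvd]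
    push_cast
    linear_combination h1
  · rw [show r * -(s * m) + s * (r * m) - 0 = 0 by ring]
    exact dvd_zero _

/-- The family of cosets. -/
theorem index_ge {n : ℕ} (hn0 : n ≠ 0) :
    Nat.card (NT n) * (n.totient * cR n) * Nat.card (NT n) ≤ (GamN qI (n : ℂ)).index := by
  have : NeZero n := ⟨hn0⟩
  choose g r s h22 hr hs using fun c : (ZMod n)ˣ × RP n => exists_ge c.1 c.2
  let F : (NT n × ((ZMod n)ˣ × RP n)) × NT n → Gam qI ⧸ GamN qI (n : ℂ) := fun x =>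
    ((fam x.1.1.1 x.1.1.2.1 x.1.1.2.2 x.2.1 x.2.2.1 x.2.2.2 (g x.1.2) : Gam qI) :
      Gam qI ⧸ GamN qI (n : ℂ))
  have hF : Function.Injective F := by
    rintro ⟨⟨x, c⟩, y⟩ ⟨⟨x', c'⟩, y'⟩ h
    have h0 := QuotientGroup.eq.mp h
    have key := cong_of_coset h0
    -- the unit
    have k22 := key 2 2
    rw [fam_22, fam_22] at k22
    simp only [h22] at k22
    rw [el_sub, elI_mem_PO] at k22
    have hc : c = c' := by
      have hc1 : c.1 = c'.1 := by
        apply Units.ext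
        rw [← hs, ← hs]
        have := (ZMod.intCast_zmod_eq_zero_iff_dvd _ n).mpr k22.2
        push_cast at this
        linear_combination -this
      have hc2 : c.2 = c'.2 := by
        apply Subtype.ext
        have h3 : (c.1 : ZMod n) * c.2.1 = c.1 * c'.2.1 := by
          rw [← hr]
          conv_rhs => rw [hc1, ← hr]
          have := (ZMod.intCast_zmod_eq_zero_iff_dvd _ n).mpr k22.1
          push_cast at this
          linear_combination -this
        exact (Units.mul_right_inj c.1).mp h3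
      exact Prod.ext hc1 hc2
    subst hc
    obtain ⟨e', he', hee⟩ := exists_inv (n := n) (r := r c) (s := s c) (by
      rw [hr, hs]
      have e1 : ((c.1 : ZMod n) * c.2.1) ^ 2 + (c.1 : ZMod n) ^ 2 =
        (c.1 : ZMod n) ^ 2 * (1 + c.2.1 ^ 2) := by ring
      rw [e1]
      exact (c.1.isUnit.pow 2).mul c.2.2)
    -- first translation
    have k12 := key 1 2
    rw [fam_12, fam_12] at k12
    simp only [h22] at k12
    have hx1 : hz x'.1 x'.2.1 - hz x.1 x.2.1 ∈ PO qI (n : ℂ) := by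
      refine PO_cancel hee ((OO qI).sub_mem (el_mem _ _) (el_mem _ _)) he' ?_
      convert k12 using 1
      ring
    obtain ⟨hx2, hx3⟩ := NT_eq hx1
    have k02 := key 0 2
    rw [fam_02, fam_02] at k02
    simp only [h22] at k02
    have hx4 : cz x'.1 x'.2.1 x'.2.2 - cz x.1 x.2.1 x.2.2 ∈ PO qI (n : ℂ) := by
      refine PO_cancel hee ((OO qI).sub_mem (el_mem _ _) (el_mem _ _)) he' ?_
      convert k02 using 1
      rw [hx2, hx3]
      ring
    have hx : x' = x := NT_eq' hx2 hx3 hx4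
    -- second translation
    have k21 := key 2 1
    rw [fam_21, fam_21] at k21
    simp only [h22] at k21
    have hy0 : star (hz y'.1 y'.2.1) - star (hz y.1 y.2.1) ∈ PO qI (n : ℂ) := by
      refine PO_cancel hee ((OO qI).sub_mem (star_mem _ (el_mem _ _)) (star_mem _ (el_mem _ _)))
        he' ?_
      convert k21 using 1
      ring
    have hy1 : hz y'.1 y'.2.1 - hz y.1 y.2.1 ∈ PO qI (n : ℂ) := by
      unfold hz at hy0 ⊢
      rw [elI_star, elI_star, el_sub, elI_mem_PO] at hy0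
      rw [el_sub, elI_mem_PO]
      refine ⟨hy0.1, ?_⟩
      have := (dvd_neg (α := ℤ)).mpr hy0.2
      rwa [neg_sub_neg, neg_sub] at this
    obtain ⟨hy2, hy3⟩ := NT_eq hy1
    have k20 := key 2 0
    rw [fam_20, fam_20] at k20
    simp only [h22] at k20
    have hy4 : cz y'.1 y'.2.1 y'.2.2 - cz y.1 y.2.1 y.2.2 ∈ PO qI (n : ℂ) := by
      refine PO_cancel hee ((OO qI).sub_mem (el_mem _ _) (el_mem _ _)) he' ?_
      convert k20 using 1
      rw [hy2, hy3]
      ring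
    have hy : y' = y := NT_eq' hy2 hy3 hy4
    rw [hx, hy]
  have hfi : (GamN qI (n : ℂ)).FiniteIndex :=
    GamN_finiteIndex (by rw [← elI_nat]; exact el_mem _ _) (by exact_mod_cast hn0)
  have hfin : Finite (Gam qI ⧸ GamN qI (n : ℂ)) := inferInstance
  have hcard := Nat.card_le_card_of_injective F hF
  rw [Nat.card_prod (NT n × ((ZMod n)ˣ × RP n)) (NT n), Nat.card_prod (NT n),
    Nat.card_prod (ZMod n)ˣ] at hcard
  have hu : Nat.card (ZMod n)ˣ = n.totient := by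
    rw [Nat.card_eq_fintype_card, ZMod.card_units_eq_totient]
  rw [hu] at hcard
  exact hcard

/-- **Lower bound of the index.** -/
theorem index_lower {n : ℕ} (hn : n ≠ 0) :
    n ^ 8 ≤ 4 * n.divisors.card ^ 3 * (GamN qI (n : ℂ)).index := by
  have h1 := index_ge hn
  have h2 := card_NT n
  have h3 := le_cR hn
  have h4 := le_totient hn
  calc n ^ 8 = n ^ 3 * (n * n) * n ^ 3 := by ring
    _ ≤ (2 * Nat.card (NT n)) * ((n.totient * n.divisors.card) * (cR n * n.divisors.card ^ 2)) *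
        (2 * Nat.card (NT n)) := by gcongr
    _ = 4 * n.divisors.card ^ 3 *
        (Nat.card (NT n) * (n.totient * cR n) * Nat.card (NT n)) := by ring
    _ ≤ _ := by gcongr

end

end Pool.Agent.Lib.H43D
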